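import Pool.Agent.Helper67.Heptagon.Seven

/-!
# MP_268afb_gt: the heptagon free knot is not trivial

Every Gauss word that represents the same free knot as the heptagon `H₇` has at least seven
chords.  For the empty word `w = []` this says that `H₇` is not the trivial free knot, which is
the negated form of Q1.
-/

namespace Pool.Agent.Results.MP_268afb_gt.HeptagonNontrivial

open Pool.Agent.Helper67.Heptagon

/-- **The heptagon free knot is not trivial.**  Every Gauss word connected with the heptagon
`1 7 2 1 3 2 4 3 5 4 6 5 7 6` by a finite sequence of moves and inverse moves has length at
least 14, that is, at least seven chords; in particular it is not the empty word. -/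
theorem result (w : List ℕ) (hw : FreeEquiv heptagon w) : 14 ≤ w.length :=
  seven_chords hw

end Pool.Agent.Results.MP_268afb_gt.HeptagonNontrivial
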